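import Pool.Agent.Y708.LN.Word

/-!
# Linearity
-/

set_option autoImplicit false

open Finset

namespace Pool.Agent.Y708.LN

/-- a faithful representation of the semidirect product over a field with a valuation -/
theorem exists_units {K : Type} [Field K] [CharZero K] {Γ : Type*}
    [LinearOrderedCommGroupWithZero Γ] (v : Valuation K Γ) (hv : ∀ t : ℚ, t ≠ 0 → v (t : K) = 1)
    (x : K) (hx1 : 1 < v x) (n : ℕ) (p q : Fin n → ℤ)
    (φ : Multiplicative ℤ →* MulAut (FreeGroup (Fin (n + 1))))
    (h0 : φ (Multiplicative.ofAdd 1) (FreeGroup.of 0) = FreeGroup.of 0)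
    (h : ∀ i : Fin n, φ (Multiplicative.ofAdd 1) (FreeGroup.of i.succ) =
      FreeGroup.of 0 ^ p i * FreeGroup.of i.succ * FreeGroup.of 0 ^ q i) :
    ∃ f : SemidirectProduct (FreeGroup (Fin (n + 1))) (Multiplicative ℤ) φ →*
      (Module.End K (V K (SS p q)))ˣ, Function.Injective f := by
  have hx : x ≠ 0 := by
    rintro rfl
    rw [map_zero] at hx1
    exact not_lt_zero' hx1
  let κ : SS p q → K := kap p q
  let ρ : FreeGroup (Fin (n + 1)) →* (Module.End K (V K (SS p q)))ˣ :=
    FreeGroup.lift (fg p q hx)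
  let τ : Multiplicative ℤ →* (Module.End K (V K (SS p q)))ˣ := zpowersHom _ (hu κ 0 1)
  have hρ0 : ρ (FreeGroup.of 0) = hu κ 1 0 := FreeGroup.lift_apply_of
  have hρs : ∀ i : Fin n, ρ (FreeGroup.of i.succ) = gu (kap_inj p q) hx (sp p q (i, true))
      ((lam (i, true) : ℚ) : K) (sp p q (i, false)) ((lam (i, false) : ℚ) : K) :=
    fun i => FreeGroup.lift_apply_of
  have hupow : ∀ (a b : K) (m : ℤ), hu κ a b ^ m = hu κ (m * a) (m * b) := by
    intro a b m
    have hmul : ∀ a b a' b' : K, hu κ a b * hu κ a' b' = hu κ (a + a') (b + b') := by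
      intro a b a' b'
      apply Units.ext
      exact hh_mul κ a b a' b'
    have h1 : hu κ 0 0 = 1 := Units.ext (hh_zero κ)
    induction m with
    | zero => rw [zpow_zero, Int.cast_zero, zero_mul, zero_mul, h1]
    | succ m ih =>
      rw [zpow_add_one, ih, hmul]
      congr 1 <;> push_cast <;> ring
    | pred m ih =>
      have h2 : hu κ a b * hu κ (-a) (-b) = 1 := by rw [hmul, add_neg_cancel, add_neg_cancel, h1]
      rw [zpow_sub_one, ih, ← eq_inv_of_mul_eq_one_right h2, hmul]
      congr 1 <;> push_cast <;> ring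
  have hτ1 : τ (Multiplicative.ofAdd 1) = hu κ 0 1 := by
    change hu κ 0 1 ^ (1 : ℤ) = _
    rw [zpow_one]
  -- compatibility at the generator
  have hgen : ∀ w, ρ (φ (Multiplicative.ofAdd 1) w) =
      τ (Multiplicative.ofAdd 1) * ρ w * (τ (Multiplicative.ofAdd 1))⁻¹ := by
    have hE : ρ.comp (φ (Multiplicative.ofAdd 1)).toMonoidHom =
        (MulAut.conj (τ (Multiplicative.ofAdd 1))).toMonoidHom.comp ρ := by
      apply FreeGroup.ext_hom
      intro j
      change ρ (φ (Multiplicative.ofAdd 1) (FreeGroup.of j)) =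
        τ (Multiplicative.ofAdd 1) * ρ (FreeGroup.of j) * (τ (Multiplicative.ofAdd 1))⁻¹
      rw [eq_mul_inv_iff_mul_eq, hτ1]
      refine Fin.cases ?_ (fun i => ?_) j
      · rw [h0, hρ0]
        apply Units.ext
        change hh κ 1 0 * hh κ 0 1 = hh κ 0 1 * hh κ 1 0
        rw [hh_mul, hh_mul, add_comm (1 : K), add_comm (0 : K) 1]
      · rw [h i, map_mul, map_mul, map_zpow, map_zpow, hρ0, hρs, hupow, hupow]
        apply Units.ext
        simp only [Units.val_mul]
        change hh κ ((p i : K) * 1) ((p i : K) * 0) * gg κ x _ _ _ _ *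
          hh κ ((q i : K) * 1) ((q i : K) * 0) * hh κ 0 1 = hh κ 0 1 * gg κ x _ _ _ _
        have hk1 : κ (sp p q (i, true)) = -(p i : K) := by
          change ((pos p q (i, true) : ℤ) : K) = _
          simp [pos]
        have hk2 : κ (sp p q (i, false)) = (q i : K) := by
          change ((pos p q (i, false) : ℤ) : K) = _
          simp [pos]
        have hc := hh_gg (kap_inj (K := K) p q) x (sp p q (i, true)) ((lam (i, true) : ℚ) : K)
          (sp p q (i, false)) ((lam (i, false) : ℚ) : K)
        change hh κ (κ _) 1 * gg κ x _ _ _ _ = gg κ x _ _ _ _ * hh κ (κ _) 1 at hc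
        rw [hk1, hk2] at hc
        rw [mul_one, mul_zero, mul_one, mul_zero, mul_assoc (hh κ (p i : K) 0 * _),
          hh_mul κ (q i : K), add_zero, zero_add, mul_assoc, ← hc, ← mul_assoc, hh_mul,
          add_neg_cancel, zero_add]
    exact fun w => congrArg (fun f => f w) hE
  have hgen' : ∀ w, ρ ((φ (Multiplicative.ofAdd 1))⁻¹ w) =
      (τ (Multiplicative.ofAdd 1))⁻¹ * ρ w * τ (Multiplicative.ofAdd 1) := by
    intro w
    have h1 := hgen ((φ (Multiplicative.ofAdd 1))⁻¹ w)
    rw [MulAut.apply_inv_self] at h1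
    rw [h1]
    group
  have hall : ∀ g w, ρ (φ g w) = τ g * ρ w * (τ g)⁻¹ := by
    have hm : ∀ (m : ℤ) w, ρ (φ (Multiplicative.ofAdd (1 : ℤ) ^ m) w) =
        τ (Multiplicative.ofAdd (1 : ℤ) ^ m) * ρ w * (τ (Multiplicative.ofAdd (1 : ℤ) ^ m))⁻¹ := by
      intro m
      induction m with
      | zero => intro w; simp
      | succ m ih =>
        intro w
        rw [zpow_add_one, map_mul, map_mul, MulAut.mul_apply, ih, hgen]
        group
      | pred m ih =>
        intro w
        rw [zpow_sub_one, map_mul, map_mul, MulAut.mul_apply, ih, map_inv, map_inv, hgen']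
        group
    intro g w
    have hg : Multiplicative.ofAdd (1 : ℤ) ^ (Multiplicative.toAdd g) = g := by
      apply Multiplicative.toAdd.injective
      rw [toAdd_zpow]
      simp
    rw [← hg]
    exact hm _ w
  refine ⟨SemidirectProduct.lift ρ τ (fun g => ?_), ?_⟩
  · apply MonoidHom.ext
    intro w
    exact hall g w
  rw [injective_iff_map_eq_one]
  intro z hz
  have hz' : ρ z.left * τ z.right = 1 := hz
  have hτ : τ z.right = hu κ 0 ((Multiplicative.toAdd z.right : ℤ) : K) := by
    change hu κ 0 1 ^ (Multiplicative.toAdd z.right) = _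
    rw [hupow, mul_zero, mul_one]
  have hw : ρ z.left = ww p q hx z.left.toWord := by
    conv_lhs => rw [← FreeGroup.mk_toWord (x := z.left)]
    exact FreeGroup.lift_mk
  have hzE : ((ww p q hx z.left.toWord : (Module.End K (V K (SS p q)))ˣ) :
      Module.End K (V K (SS p q))) * hh κ 0 ((Multiplicative.toAdd z.right : ℤ) : K) = 1 := by
    rw [hw, hτ] at hz'
    exact congrArg Units.val hz'
  rcases good p q hx hv hx1 z.left.toWord FreeGroup.isReduced_toWord with
    ⟨m, hm1, hm2⟩ | ⟨s0, e, m, hI, -⟩
  · rw [FreeGroup.mk_toWord] at hm1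
    rw [hm2, hh_mul, add_zero, zero_add] at hzE
    have key : ∀ r : SS p q, (m : K) - ((r : ℤ) : K) * ((Multiplicative.toAdd z.right : ℤ) : K) = 0 := by
      intro r
      have h1 := congrArg (fun g : Module.End K (V K (SS p q)) => (g (fun _ => 1, fun _ => 0)).2 r) hzE
      simp only [hh_snd, Module.End.one_apply, mul_one, zero_add] at h1
      exact h1
    have k0 := key ⟨0, mem_insert_self _ _⟩
    have k1 := key ⟨1, mem_insert_of_mem (mem_insert_self _ _)⟩
    have e0 : m = 0 := by
      simp only [Int.cast_zero, zero_mul, sub_zero] at k0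
      exact_mod_cast k0
    have e1 : Multiplicative.toAdd z.right = 0 := by
      rw [e0] at k1
      simp only [Int.cast_zero, Int.cast_one, one_mul, zero_sub, neg_eq_zero] at k1
      exact_mod_cast k1
    apply SemidirectProduct.ext
    · rw [hm1, e0, zpow_zero]; rfl
    · apply Multiplicative.toAdd.injective
      exact e1
  · exfalso
    apply hI.1
    have h1 := congrArg (fun g : Module.End K (V K (SS p q)) => g (st s0)) hzE
    simp only [Module.End.mul_apply, hh_st, Module.End.one_apply] at h1
    rw [h1]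
    rfl

/-- transfer to matrices -/
theorem exists_matrix {K : Type} [Field K] (j : K →+* ℝ) {M : Type} [AddCommGroup M] [Module K M]
    [Module.Finite K M] {G : Type} [Group G] (f : G →* (Module.End K M)ˣ)
    (hf : Function.Injective f) :
    ∃ (d : ℕ) (g : G →* Matrix.GeneralLinearGroup (Fin d) ℝ), Function.Injective g := by
  let b := Module.finBasis K M
  let e1 : (Module.End K M)ˣ →* Matrix.GeneralLinearGroup (Fin (Module.finrank K M)) K :=
    (Units.mapEquiv (LinearMap.toMatrixAlgEquiv b).toMulEquiv).toMonoidHom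
  let e2 : Matrix.GeneralLinearGroup (Fin (Module.finrank K M)) K →*
      Matrix.GeneralLinearGroup (Fin (Module.finrank K M)) ℝ := Matrix.GeneralLinearGroup.map j
  refine ⟨_, (e2.comp e1).comp f, ?_⟩
  have h1 : Function.Injective e1 :=
    (Units.mapEquiv (LinearMap.toMatrixAlgEquiv b).toMulEquiv).injective
  have h2 : Function.Injective e2 := by
    intro A B hAB
    apply Matrix.GeneralLinearGroup.ext
    intro r c
    have h3 := congrArg (fun X : Matrix.GeneralLinearGroup (Fin (Module.finrank K M)) ℝ =>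
      (X : Matrix _ _ ℝ) r c) hAB
    exact j.injective h3
  exact (h2.comp h1).comp hf

/-- an embedding of the rational functions in the reals -/
theorem exists_embedding : Nonempty (RatFunc ℚ →+* ℝ) := by
  have ht : Transcendental ℚ (liouvilleNumber 2) := fun h =>
    transcendental_liouvilleNumber le_rfl
      ((IsFractionRing.isAlgebraic_iff ℤ ℚ ℝ).2 h)
  have hinj : Function.Injective (Polynomial.aeval (R := ℚ) (liouvilleNumber 2)) :=
    transcendental_iff_injective.1 ht
  exact ⟨RatFunc.liftRingHom (Polynomial.aeval (R := ℚ) (liouvilleNumber 2)).toRingHom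
    (nonZeroDivisors_le_comap_nonZeroDivisors_of_injective _ hinj)⟩

/-- linearity -/
theorem linear (n : ℕ) (p q : Fin n → ℤ)
    (φ : Multiplicative ℤ →* MulAut (FreeGroup (Fin (n + 1))))
    (h0 : φ (Multiplicative.ofAdd 1) (FreeGroup.of 0) = FreeGroup.of 0)
    (h : ∀ i : Fin n, φ (Multiplicative.ofAdd 1) (FreeGroup.of i.succ) =
      FreeGroup.of 0 ^ p i * FreeGroup.of i.succ * FreeGroup.of 0 ^ q i) :
    ∃ (d : ℕ) (f : SemidirectProduct (FreeGroup (Fin (n + 1))) (Multiplicative ℤ) φ →*
      Matrix.GeneralLinearGroup (Fin d) ℝ), Function.Injective f := by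
  classical
  obtain ⟨j⟩ := exists_embedding
  obtain ⟨f, hf⟩ := exists_units (K := RatFunc ℚ) (RatFunc.inftyValuation ℚ) (by
      intro t ht
      have e : ((t : ℚ) : RatFunc ℚ) = RatFunc.C t := by
        exact (eq_ratCast (RatFunc.C : ℚ →+* RatFunc ℚ) t).symm
      rw [e]
      exact RatFunc.inftyValuation.C ℚ ht) RatFunc.X (by
      rw [RatFunc.inftyValuation.X]
      exact WithZero.exp_lt_exp.2 one_pos) n p q φ h0 h
  exact exists_matrix j f hf

end Pool.Agent.Y708.LN
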