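import Mathlib

/-!
# A linear representation of some free-by-cyclic groups: the matrices

`V = (ι → K) × (ι → K)`; the first component contains the coordinates with respect to the vectors
`e_r`, the second one those with respect to `f_r`.
-/

set_option autoImplicit false

open Finset

namespace Pool.Agent.Y708.LN

variable {K : Type*} [Field K] {ι : Type*} [Fintype ι] [DecidableEq ι]

/-- the space -/
abbrev V (K ι : Type*) : Type _ := (ι → K) × (ι → K)

/-- the operator `A^m T^k` -/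
def hh (κ : ι → K) (m k : K) : Module.End K (V K ι) where
  toFun v := (v.1, fun r => v.2 r + (m - κ r * k) * v.1 r)
  map_add' v w := by
    ext r
    · rfl
    · simp only [Prod.fst_add, Prod.snd_add, Pi.add_apply]; ring
  map_smul' c v := by
    ext r
    · rfl
    · simp only [Prod.smul_fst, Prod.smul_snd, Pi.smul_apply, smul_eq_mul, RingHom.id_apply]; ring

lemma hh_fst (κ : ι → K) (m k : K) (v : V K ι) : (hh κ m k v).1 = v.1 := rfl

lemma hh_snd (κ : ι → K) (m k : K) (v : V K ι) (r : ι) :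
    (hh κ m k v).2 r = v.2 r + (m - κ r * k) * v.1 r := rfl

lemma hh_mul (κ : ι → K) (m k m' k' : K) : hh κ m k * hh κ m' k' = hh κ (m + m') (k + k') := by
  apply LinearMap.ext
  intro v
  rw [Module.End.mul_apply]
  ext r
  · rfl
  · rw [hh_snd, hh_snd, hh_snd, hh_fst]; ring

lemma hh_zero (κ : ι → K) : hh κ 0 0 = 1 := by
  apply LinearMap.ext
  intro v
  ext r
  · rfl
  · rw [hh_snd]; simp

/-- the operator `A^m T^k` as a unit -/
def hu (κ : ι → K) (m k : K) : (Module.End K (V K ι))ˣ where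
  val := hh κ m k
  inv := hh κ (-m) (-k)
  val_inv := by rw [hh_mul, add_neg_cancel, add_neg_cancel, hh_zero]
  inv_val := by rw [hh_mul, neg_add_cancel, neg_add_cancel, hh_zero]

/-- the covector of the end with parameters `s`, `l` -/
def al (s : ι) (l : K) (v : V K ι) : K := v.2 s - (l + 1) * v.1 s + ∑ t, v.1 t

lemma al_add (s : ι) (l : K) (v w : V K ι) : al s l (v + w) = al s l v + al s l w := by
  simp only [al, Prod.fst_add, Prod.snd_add, Pi.add_apply, sum_add_distrib]; ring

lemma al_smul (s : ι) (l c : K) (v : V K ι) : al s l (c • v) = c * al s l v := by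
  simp only [al, Prod.smul_fst, Prod.smul_snd, Pi.smul_apply, smul_eq_mul, ← mul_sum]; ring

/-- the stable letter from the end `s'`, `l'` to the end `s`, `l` -/
def gg (κ : ι → K) (x : K) (s : ι) (l : K) (s' : ι) (l' : K) : Module.End K (V K ι) where
  toFun v :=
    (fun r => if r = s then x * al s' l' v else v.1 (Equiv.swap s s' r),
     fun r => if r = s then x * al s' l' v * l + x⁻¹ * v.1 s' - ∑ t, v.1 t + v.1 s' else
      (κ s - κ r) / (κ s' - κ (Equiv.swap s s' r)) * v.2 (Equiv.swap s s' r))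
  map_add' v w := by
    ext r
    · simp only [Prod.fst_add, Pi.add_apply]
      split_ifs
      · rw [al_add]; ring
      · rfl
    · simp only [Prod.snd_add, Prod.fst_add, Pi.add_apply, sum_add_distrib]
      split_ifs
      · rw [al_add]; ring
      · ring
  map_smul' c v := by
    ext r
    · simp only [Prod.smul_fst, Pi.smul_apply, smul_eq_mul, RingHom.id_apply]
      split_ifs
      · rw [al_smul]; ring
      · rfl
    · simp only [Prod.smul_snd, Prod.smul_fst, Pi.smul_apply, smul_eq_mul, RingHom.id_apply,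
        ← mul_sum]
      split_ifs
      · rw [al_smul]; ring
      · ring

lemma gg_fst (κ : ι → K) (x : K) (s : ι) (l : K) (s' : ι) (l' : K) (v : V K ι) (r : ι) :
    (gg κ x s l s' l' v).1 r = if r = s then x * al s' l' v else v.1 (Equiv.swap s s' r) := rfl

lemma gg_snd (κ : ι → K) (x : K) (s : ι) (l : K) (s' : ι) (l' : K) (v : V K ι) (r : ι) :
    (gg κ x s l s' l' v).2 r =
      if r = s then x * al s' l' v * l + x⁻¹ * v.1 s' - ∑ t, v.1 t + v.1 s' else
      (κ s - κ r) / (κ s' - κ (Equiv.swap s s' r)) * v.2 (Equiv.swap s s' r) := rfl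

lemma swap_ne {s s' r : ι} (h : r ≠ s) : Equiv.swap s s' r ≠ s' := by
  intro h'
  apply h
  have := congrArg (Equiv.swap s s') h'
  rwa [Equiv.swap_apply_self, Equiv.swap_apply_right] at this

lemma sum_gg (κ : ι → K) (x : K) (s : ι) (l : K) (s' : ι) (l' : K) (v : V K ι) :
    ∑ r, (gg κ x s l s' l' v).1 r = x * al s' l' v + ∑ t, v.1 t - v.1 s' := by
  have h1 : ∑ r, (gg κ x s l s' l' v).1 r =
      ∑ r, (v.1 (Equiv.swap s s' r) + if r = s then x * al s' l' v - v.1 s' else 0) := by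
    refine sum_congr rfl fun r _ => ?_
    rw [gg_fst]
    split_ifs with h
    · rw [h, Equiv.swap_apply_left]; ring
    · ring
  rw [h1, sum_add_distrib, sum_ite_eq' univ s, if_pos (mem_univ s),
    Equiv.sum_comp (Equiv.swap s s') v.1]
  ring

lemma al_gg (κ : ι → K) (x : K) (s : ι) (l : K) (s' : ι) (l' : K) (v : V K ι) :
    al s l (gg κ x s l s' l' v) = x⁻¹ * v.1 s' := by
  unfold al
  rw [sum_gg, gg_snd, gg_fst, if_pos rfl, if_pos rfl]
  unfold al
  ring

lemma gg_gg {κ : ι → K} (hκ : Function.Injective κ) {x : K} (hx : x ≠ 0) (s : ι) (l : K) (s' : ι)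
    (l' : K) : gg κ x s' l' s l * gg κ x s l s' l' = 1 := by
  apply LinearMap.ext
  intro v
  rw [Module.End.mul_apply, Module.End.one_apply]
  have hal := al_gg κ x s l s' l' v
  have hsum := sum_gg κ x s l s' l' v
  have hs : (gg κ x s l s' l' v).1 s = x * al s' l' v := by rw [gg_fst, if_pos rfl]
  have hsw : ∀ r, r ≠ s' → Equiv.swap s' s r ≠ s ∧ Equiv.swap s s' (Equiv.swap s' s r) = r := by
    intro r h
    refine ⟨swap_ne h, ?_⟩
    rw [Equiv.swap_comm s' s, Equiv.swap_apply_self]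
  ext r
  · rw [gg_fst]
    split_ifs with h
    · rw [hal, h, mul_inv_cancel_left₀ hx]
    · obtain ⟨h1, h2⟩ := hsw r h
      rw [gg_fst, if_neg h1, h2]
  · rw [gg_snd]
    split_ifs with h
    · rw [hal, hs, hsum, h]
      unfold al
      field_simp
      ring
    · obtain ⟨h1, h2⟩ := hsw r h
      rw [gg_snd, if_neg h1, h2]
      have n1 : κ s' - κ r ≠ 0 := sub_ne_zero.2 (fun h' => h (hκ h').symm)
      have n2 : κ s - κ (Equiv.swap s' s r) ≠ 0 := sub_ne_zero.2 (fun h' => h1 (hκ h').symm)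
      field_simp

/-- the stable letter as a unit -/
def gu {κ : ι → K} (hκ : Function.Injective κ) {x : K} (hx : x ≠ 0) (s : ι) (l : K) (s' : ι)
    (l' : K) : (Module.End K (V K ι))ˣ where
  val := gg κ x s l s' l'
  inv := gg κ x s' l' s l
  val_inv := gg_gg hκ hx s' l' s l
  inv_val := gg_gg hκ hx s l s' l'

lemma hh_gg {κ : ι → K} (hκ : Function.Injective κ) (x : K) (s : ι) (l : K) (s' : ι) (l' : K) :
    hh κ (κ s) 1 * gg κ x s l s' l' = gg κ x s l s' l' * hh κ (κ s') 1 := by
  apply LinearMap.ext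
  intro v
  rw [Module.End.mul_apply, Module.End.mul_apply]
  have hal : al s' l' (hh κ (κ s') 1 v) = al s' l' v := by
    unfold al
    rw [hh_snd, hh_fst]
    ring
  ext r
  · rw [hh_fst, gg_fst, gg_fst, hal, hh_fst]
  · rw [hh_snd, gg_snd, gg_snd, gg_fst, hal, hh_snd, hh_fst]
    split_ifs with h
    · rw [h]; ring
    · have h1 : Equiv.swap s s' r ≠ s' := swap_ne h
      have n : κ s' - κ (Equiv.swap s s' r) ≠ 0 := sub_ne_zero.2 (fun h' => h1 (hκ h').symm)
      field_simp

section valuation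

variable {Γ : Type*} [LinearOrderedCommGroupWithZero Γ] (v : Valuation K Γ)

/-- `z` is, up to `A^m` and a scalar, the vector of the end `s`, `l`, up to small terms -/
def Inv (s : ι) (l m : K) (z : V K ι) : Prop :=
  z.1 s ≠ 0 ∧ (∀ r, r ≠ s → v (z.1 r) < v (z.1 s) ∧ v (z.2 r) < v (z.1 s)) ∧
    v (z.2 s - (l + m) * z.1 s) < v (z.1 s)

variable {v}

lemma Inv.of_hh {κ : ι → K} {s : ι} {l m a : K} {z : V K ι} (h : Inv v s l m z) (ha : v a ≤ 1) :
    Inv v s l (m + a) (hh κ a 0 z) := by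
  obtain ⟨h0, h1, h2⟩ := h
  refine ⟨h0, fun r hr => ⟨(h1 r hr).1, ?_⟩, ?_⟩
  · rw [hh_snd, hh_fst, mul_zero, sub_zero]
    refine (v.map_add _ _).trans_lt (max_lt (h1 r hr).2 ?_)
    rw [map_mul]
    calc v a * v (z.1 r) ≤ 1 * v (z.1 r) := by gcongr
      _ < v (z.1 s) := by rw [one_mul]; exact (h1 r hr).1
  · rw [hh_snd, hh_fst]
    have e : z.2 s + (a - κ s * 0) * z.1 s - (l + (m + a)) * z.1 s =
        z.2 s - (l + m) * z.1 s := by ring
    rw [e]
    exact h2

lemma Inv.le {s : ι} {l m : K} {z : V K ι} (h : Inv v s l m z) (hl : v (l + m) ≤ 1) (r : ι) :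
    v (z.1 r) ≤ v (z.1 s) ∧ v (z.2 r) ≤ v (z.1 s) := by
  obtain ⟨h0, h1, h2⟩ := h
  by_cases hr : r = s
  · subst hr
    refine ⟨le_rfl, ?_⟩
    have e : z.2 r = (z.2 r - (l + m) * z.1 r) + (l + m) * z.1 r := by ring
    rw [e]
    refine (v.map_add _ _).trans (max_le h2.le ?_)
    rw [map_mul]
    calc v (l + m) * v (z.1 r) ≤ 1 * v (z.1 r) := by gcongr
      _ = v (z.1 r) := one_mul _
  · exact ⟨(h1 r hr).1.le, (h1 r hr).2.le⟩

/-- the value of the junction -/
lemma Inv.al_eq {s s' : ι} {l l' m : K} {z : V K ι} (h : Inv v s l m z)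
    (hl' : v l' ≤ 1)
    (hj : s = s' → v (l + m - l') = 1) : v (al s' l' z) = v (z.1 s) := by
  obtain ⟨h0, h1, h2⟩ := h
  have hsum : ∑ t, z.1 t = z.1 s + ∑ t ∈ univ.erase s, z.1 t :=
    (add_sum_erase univ z.1 (mem_univ s)).symm
  have hsmall : v (∑ t ∈ univ.erase s, z.1 t) < v (z.1 s) := by
    refine v.map_sum_lt ((v.ne_zero_iff).2 h0) ?_
    intro t ht
    exact (h1 t (ne_of_mem_erase ht)).1
  by_cases hs : s = s'
  · subst hs
    have e : al s l' z = (l + m - l') * z.1 s +
        ((z.2 s - (l + m) * z.1 s) + ∑ t ∈ univ.erase s, z.1 t) := by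
      unfold al
      rw [hsum]; ring
    rw [e]
    have h3 : v ((z.2 s - (l + m) * z.1 s) + ∑ t ∈ univ.erase s, z.1 t) < v (z.1 s) :=
      (v.map_add _ _).trans_lt (max_lt h2 hsmall)
    have h4 : v ((l + m - l') * z.1 s) = v (z.1 s) := by rw [map_mul, hj rfl, one_mul]
    rw [v.map_add_eq_of_lt_left (by rw [h4]; exact h3), h4]
  · have hs' : s' ≠ s := fun h => hs h.symm
    have e : al s' l' z = z.1 s + ((z.2 s' - (l' * z.1 s' + z.1 s')) +
        ∑ t ∈ univ.erase s, z.1 t) := by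
      unfold al
      rw [hsum]; ring
    rw [e]
    have h5 : v (l' * z.1 s') < v (z.1 s) := by
      rw [map_mul]
      calc v l' * v (z.1 s') ≤ 1 * v (z.1 s') := by gcongr
        _ < v (z.1 s) := by rw [one_mul]; exact (h1 s' hs').1
    have h3 : v ((z.2 s' - (l' * z.1 s' + z.1 s')) + ∑ t ∈ univ.erase s, z.1 t) < v (z.1 s) := by
      refine (v.map_add _ _).trans_lt (max_lt ?_ hsmall)
      refine (v.map_sub _ _).trans_lt (max_lt (h1 s' hs').2 ?_)
      exact (v.map_add _ _).trans_lt (max_lt h5 (h1 s' hs').1)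
    rw [v.map_add_eq_of_lt_left h3]

lemma Inv.of_gg {κ : ι → K} (hκ : ∀ a b c d : ι, v ((κ a - κ b) / (κ c - κ d)) ≤ 1) {x : K}
    (hx : 1 < v x) {s s' s'' : ι} {l l' l'' m : K} {z : V K ι} (h : Inv v s l m z)
    (hl : v (l + m) ≤ 1) (hl' : v l' ≤ 1) (hj : s = s' → v (l + m - l') = 1) :
    Inv v s'' l'' 0 (gg κ x s'' l'' s' l' z) := by
  have hal := h.al_eq hl' hj
  have hle := h.le hl
  have h0 : v (z.1 s) ≠ 0 := (v.ne_zero_iff).2 h.1
  have hpos : 0 < v (z.1 s) := zero_lt_iff.2 h0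
  have e1 : (gg κ x s'' l'' s' l' z).1 s'' = x * al s' l' z := by rw [gg_fst, if_pos rfl]
  have hbig : v (z.1 s) < v (x * al s' l' z) := by
    rw [map_mul, hal]
    calc v (z.1 s) = 1 * v (z.1 s) := (one_mul _).symm
      _ < v x * v (z.1 s) := by
        exact mul_lt_mul_of_pos_right hx hpos
  refine ⟨?_, ?_, ?_⟩
  · rw [e1]
    intro h'
    rw [h', map_zero] at hbig
    exact not_lt_zero' hbig
  · intro r hr
    rw [e1]
    refine ⟨?_, ?_⟩
    · rw [gg_fst, if_neg hr]
      exact (hle _).1.trans_lt hbig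
    · rw [gg_snd, if_neg hr, map_mul]
      refine lt_of_le_of_lt ?_ hbig
      calc v ((κ s'' - κ r) / (κ s' - κ (Equiv.swap s'' s' r))) *
            v (z.2 (Equiv.swap s'' s' r)) ≤ 1 * v (z.1 s) :=
            mul_le_mul' (hκ _ _ _ _) (hle _).2
        _ = v (z.1 s) := one_mul _
  · rw [e1, gg_snd, if_pos rfl]
    have e : x * al s' l' z * l'' + x⁻¹ * z.1 s' - ∑ t, z.1 t + z.1 s' -
        (l'' + 0) * (x * al s' l' z) = x⁻¹ * z.1 s' - ∑ t, z.1 t + z.1 s' := by ring
    rw [e]
    refine lt_of_le_of_lt ?_ hbig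
    refine (v.map_add _ _).trans (max_le ?_ (hle _).1)
    refine (v.map_sub _ _).trans (max_le ?_ ?_)
    · rw [map_mul, map_inv₀]
      calc (v x)⁻¹ * v (z.1 s') ≤ 1 * v (z.1 s) :=
            mul_le_mul' (inv_le_one_of_one_le₀ hx.le) (hle _).1
        _ = v (z.1 s) := one_mul _
    · exact v.map_sum_le (fun t _ => (hle t).1)

/-- the starting vector -/
def st (s : ι) : V K ι := (0, fun r => if r = s then 1 else 0)

lemma hh_st (κ : ι → K) (m k : K) (s : ι) : hh κ m k (st s) = st s := by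
  ext r
  · rfl
  · rw [hh_snd]; simp [st]

lemma Inv_start (κ : ι → K) {x : K} (hx : 1 < v x) (s'' s' : ι) (l'' l' : K) :
    Inv v s'' l'' 0 (gg κ x s'' l'' s' l' (st s')) := by
  have hal : al s' l' (st (K := K) s') = 1 := by
    unfold al st
    simp
  have e1 : (gg κ x s'' l'' s' l' (st s')).1 s'' = x := by
    rw [gg_fst, if_pos rfl, hal, mul_one]
  have hx0 : (0 : Γ) < v x := lt_trans zero_lt_one hx
  refine ⟨?_, ?_, ?_⟩
  · rw [e1]
    rintro rfl
    rw [map_zero] at hx0
    exact lt_irrefl _ hx0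
  · intro r hr
    rw [e1]
    refine ⟨?_, ?_⟩
    · rw [gg_fst, if_neg hr]
      change v 0 < v x
      rw [map_zero]; exact hx0
    · rw [gg_snd, if_neg hr]
      have h2 : (st (K := K) s').2 (Equiv.swap s'' s' r) = 0 := by
        unfold st
        exact if_neg (swap_ne hr)
      rw [h2, mul_zero, map_zero]; exact hx0
  · rw [e1, gg_snd, if_pos rfl, hal]
    have e : x * 1 * l'' + x⁻¹ * (st (K := K) s').1 s' - ∑ t, (st (K := K) s').1 t +
        (st (K := K) s').1 s' - (l'' + 0) * x = 0 := by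
      unfold st
      simp
      ring
    rw [e, map_zero]; exact hx0

end valuation

end Pool.Agent.Y708.LN
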