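import Pool.Agent.Y708.LN.Main

/-!
# Linearity passes to groups which contain a linear group as a subgroup of finite index
-/

set_option autoImplicit false

open Finset

namespace Pool.Agent.Y708.LN

section induced

variable {G : Type} [Group G] (H : Subgroup G) {M : Type} [AddCommGroup M] [Module ℝ M]
  (ρ : H →* (Module.End ℝ M)ˣ)

/-- the space of the induced representation -/
def ind : Submodule ℝ (G → M) where
  carrier := {f | ∀ (h : H) (x : G), f (h * x) = (ρ h : Module.End ℝ M) (f x)}
  add_mem' {f g} hf hg h x := by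
    simp only [Pi.add_apply, map_add]
    rw [hf, hg]
  zero_mem' h x := by simp
  smul_mem' c f hf h x := by
    simp only [Pi.smul_apply, map_smul]
    rw [hf]

lemma mem_ind {f : G → M} : f ∈ ind H ρ ↔
    ∀ (h : H) (x : G), f (h * x) = (ρ h : Module.End ℝ M) (f x) := Iff.rfl

/-- the action of an element -/
def indEnd (g : G) : Module.End ℝ (ind H ρ) where
  toFun f := ⟨fun x => f.1 (x * g), fun h x => by
    change f.1 (h * x * g) = _
    rw [mul_assoc]
    exact f.2 h (x * g)⟩
  map_add' f f' := rfl
  map_smul' c f := rfl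

/-- the action -/
def indHom : G →* Module.End ℝ (ind H ρ) where
  toFun := indEnd H ρ
  map_one' := by
    apply LinearMap.ext
    intro f
    apply Subtype.ext
    funext x
    change f.1 (x * 1) = f.1 x
    rw [mul_one]
  map_mul' g g' := by
    apply LinearMap.ext
    intro f
    apply Subtype.ext
    funext x
    change f.1 (x * (g * g')) = f.1 (x * g * g')
    rw [mul_assoc]

open scoped Classical in
/-- functions supported by the subgroup -/
noncomputable def bas (m : M) : ind H ρ :=
  ⟨fun x => if hx : x ∈ H then (ρ ⟨x, hx⟩ : Module.End ℝ M) m else 0, fun h x => by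
    by_cases hx : x ∈ H
    · have h1 : (h : G) * x ∈ H := H.mul_mem h.2 hx
      simp only [hx, h1, dif_pos]
      have h2 : (⟨h * x, h1⟩ : H) = h * ⟨x, hx⟩ := rfl
      rw [h2, map_mul, Units.val_mul, Module.End.mul_apply]
    · have h1 : (h : G) * x ∉ H := fun h1 => hx ((Subgroup.mul_mem_cancel_left H h.2).1 h1)
      simp only [hx, h1, dif_neg, not_false_eq_true, map_zero]⟩

lemma bas_of_mem (m : M) {x : G} (hx : x ∈ H) :
    (bas H ρ m).1 x = (ρ ⟨x, hx⟩ : Module.End ℝ M) m := dif_pos hx

lemma bas_of_notMem (m : M) {x : G} (hx : x ∉ H) : (bas H ρ m).1 x = 0 := dif_neg hx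

variable {ρ} in
lemma indHom_injective [Nontrivial M] (hρ : Function.Injective ρ) :
    Function.Injective (indHom H ρ) := by
  rw [injective_iff_map_eq_one]
  intro g hg
  have key : ∀ m : M, (bas H ρ m).1 g = (bas H ρ m).1 1 := by
    intro m
    have h1 := congrArg (fun E : Module.End ℝ (ind H ρ) => (E (bas H ρ m)).1 1) hg
    change (bas H ρ m).1 (1 * g) = (bas H ρ m).1 1 at h1
    rwa [one_mul] at h1
  have h1 : ∀ m : M, (bas H ρ m).1 1 = m := by
    intro m
    rw [bas_of_mem H ρ m H.one_mem]
    have : (⟨1, H.one_mem⟩ : H) = 1 := rfl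
    rw [this, map_one]
    rfl
  by_cases hgH : g ∈ H
  · have h2 : ρ ⟨g, hgH⟩ = 1 := by
      apply Units.ext
      apply LinearMap.ext
      intro m
      have h3 := key m
      rw [h1, bas_of_mem H ρ m hgH] at h3
      exact h3
    have h4 := (injective_iff_map_eq_one ρ).1 hρ _ h2
    exact congrArg Subtype.val h4
  · exfalso
    obtain ⟨m, hm⟩ := exists_ne (0 : M)
    have h3 := key m
    rw [h1, bas_of_notMem H ρ m hgH] at h3
    exact hm h3.symm

lemma ind_finite [H.FiniteIndex] [Module.Finite ℝ M] : Module.Finite ℝ (ind H ρ) := by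
  haveI : Finite (Quotient (QuotientGroup.rightRel H)) :=
    Finite.of_equiv _ (QuotientGroup.quotientRightRelEquivQuotientLeftRel H).symm
  let L : ind H ρ →ₗ[ℝ] (Quotient (QuotientGroup.rightRel H) → M) :=
    { toFun := fun f c => f.1 c.out
      map_add' := fun f g => rfl
      map_smul' := fun c f => rfl }
  refine Module.Finite.of_injective L ?_
  intro f f' hff
  apply Subtype.ext
  funext x
  have h1 := congrFun hff (Quotient.mk _ x)
  change f.1 (Quotient.mk (QuotientGroup.rightRel H) x).out =
    f'.1 (Quotient.mk (QuotientGroup.rightRel H) x).out at h1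
  have h2 : (QuotientGroup.rightRel H) (Quotient.mk (QuotientGroup.rightRel H) x).out x :=
    Quotient.mk_out x
  rw [QuotientGroup.rightRel_apply] at h2
  set y := (Quotient.mk (QuotientGroup.rightRel H) x).out
  have h3 : x = ((⟨x * y⁻¹, h2⟩ : H) : G) * y := by simp
  rw [h3, f.2, f'.2, h1]

end induced

theorem exists_of_finiteIndex {G : Type} [Group G] (H : Subgroup G) [H.FiniteIndex] {d : ℕ}
    (f : H →* Matrix.GeneralLinearGroup (Fin d) ℝ) (hf : Function.Injective f) :
    ∃ (d' : ℕ) (f' : G →* Matrix.GeneralLinearGroup (Fin d') ℝ), Function.Injective f' := by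
  let e1 : Matrix.GeneralLinearGroup (Fin d) ℝ →* (Module.End ℝ (Fin d → ℝ))ˣ :=
    Units.map (Matrix.toLinAlgEquiv' (R := ℝ) (n := Fin d)).toAlgHom.toRingHom.toMonoidHom
  have he1 : Function.Injective e1 := Units.map_injective
    (Matrix.toLinAlgEquiv' (R := ℝ) (n := Fin d)).injective
  let e2 : Module.End ℝ (Fin d → ℝ) →* Module.End ℝ ((Fin d → ℝ) × ℝ) :=
    { toFun := fun A => LinearMap.prodMap A LinearMap.id
      map_one' := LinearMap.prodMap_id
      map_mul' := fun A B => by
        apply LinearMap.ext
        intro x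
        rfl }
  have he2 : Function.Injective e2 := by
    intro A B hAB
    apply LinearMap.ext
    intro x
    have h1 := congrArg (fun E : Module.End ℝ ((Fin d → ℝ) × ℝ) => (E (x, 0)).1) hAB
    exact h1
  let ρ : H →* (Module.End ℝ ((Fin d → ℝ) × ℝ))ˣ := ((Units.map e2).comp e1).comp f
  have hρ : Function.Injective ρ := ((Units.map_injective he2).comp he1).comp hf
  have hinj := indHom_injective H hρ
  have hfin : Module.Finite ℝ (ind H ρ) := ind_finite H ρ
  refine exists_matrix (RingHom.id ℝ) (M := ind H ρ) (indHom H ρ).toHomUnits ?_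
  intro g g' hgg
  apply hinj
  exact congrArg Units.val hgg

section twist

variable {F : Type} [Group F]

lemma conj_all {U : Type} [Group U] (ψ : Multiplicative ℤ →* MulAut F) (ρ : F →* U) (s : U)
    (h : ∀ w, ρ (ψ (Multiplicative.ofAdd 1) w) = s * ρ w * s⁻¹) (g : Multiplicative ℤ) :
    ρ.comp (ψ g).toMonoidHom = (MulAut.conj (zpowersHom U s g)).toMonoidHom.comp ρ := by
  have h' : ∀ w, ρ ((ψ (Multiplicative.ofAdd 1))⁻¹ w) = s⁻¹ * ρ w * s := by
    intro w
    have h1 := h ((ψ (Multiplicative.ofAdd 1))⁻¹ w)
    rw [MulAut.apply_inv_self] at h1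
    rw [h1]
    group
  have hm : ∀ (m : ℤ) w, ρ (ψ (Multiplicative.ofAdd (1 : ℤ) ^ m) w) = s ^ m * ρ w * (s ^ m)⁻¹ := by
    intro m
    induction m with
    | zero => intro w; simp
    | succ m ih =>
      intro w
      rw [zpow_add_one, map_mul, MulAut.mul_apply, ih, h, zpow_add_one]
      group
    | pred m ih =>
      intro w
      rw [zpow_sub_one, map_mul, MulAut.mul_apply, ih, map_inv, h', zpow_sub_one]
      group
  apply MonoidHom.ext
  intro w
  have hg : Multiplicative.ofAdd (1 : ℤ) ^ (Multiplicative.toAdd g) = g := by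
    apply Multiplicative.toAdd.injective
    rw [toAdd_zpow]
    simp
  have h1 := hm (Multiplicative.toAdd g) w
  rw [hg] at h1
  exact h1

/-- linearity of a mapping torus from the linearity of the one of a conjugate of a power -/
theorem linear_of_power (φ ψ : Multiplicative ℤ →* MulAut F) (k : ℕ) (hk : 0 < k)
    (θ : MulAut F) (g : F)
    (h : ∀ w, φ (Multiplicative.ofAdd (k : ℤ)) (θ w) = g * θ (ψ (Multiplicative.ofAdd 1) w) * g⁻¹)
    (hψ : ∃ (d : ℕ) (f : SemidirectProduct F (Multiplicative ℤ) ψ →*
      Matrix.GeneralLinearGroup (Fin d) ℝ), Function.Injective f) :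
    ∃ (d : ℕ) (f : SemidirectProduct F (Multiplicative ℤ) φ →*
      Matrix.GeneralLinearGroup (Fin d) ℝ), Function.Injective f := by
  obtain ⟨d, f, hf⟩ := hψ
  let s : SemidirectProduct F (Multiplicative ℤ) φ :=
    SemidirectProduct.inl g⁻¹ * SemidirectProduct.inr (Multiplicative.ofAdd (k : ℤ))
  have hs : ∀ w : F, (SemidirectProduct.inl (θ (ψ (Multiplicative.ofAdd 1) w)) :
      SemidirectProduct F (Multiplicative ℤ) φ) = s * SemidirectProduct.inl (θ w) * s⁻¹ := by
    intro w
    have h1 : θ (ψ (Multiplicative.ofAdd 1) w) =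
        g⁻¹ * φ (Multiplicative.ofAdd (k : ℤ)) (θ w) * g := by rw [h]; group
    rw [h1, map_mul, map_mul, SemidirectProduct.inl_aut]
    simp only [s, map_inv, mul_inv_rev, inv_inv]
    group
  let J : SemidirectProduct F (Multiplicative ℤ) ψ →* SemidirectProduct F (Multiplicative ℤ) φ :=
    SemidirectProduct.lift (SemidirectProduct.inl.comp θ.toMonoidHom) (zpowersHom _ s)
      (conj_all ψ _ s hs)
  have hJl : ∀ w, J (SemidirectProduct.inl w) = SemidirectProduct.inl (θ w) := fun w =>
    SemidirectProduct.lift_inl _ _ _ w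
  have hJr : ∀ m, J (SemidirectProduct.inr m) = s ^ (Multiplicative.toAdd m) := fun m =>
    SemidirectProduct.lift_inr _ _ _ m
  have hsr : s.right = Multiplicative.ofAdd (k : ℤ) := by
    simp [s]
  have hspow : ∀ m : ℤ, (s ^ m).right = Multiplicative.ofAdd ((k : ℤ) * m) := by
    intro m
    have h1 : SemidirectProduct.rightHom (s ^ m) = (SemidirectProduct.rightHom s) ^ m :=
      map_zpow _ _ _
    change (s ^ m).right = s.right ^ m at h1
    rw [h1, hsr]
    apply Multiplicative.toAdd.injective
    rw [toAdd_zpow, toAdd_ofAdd, toAdd_ofAdd, smul_eq_mul, mul_comm]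
  have hJinj : Function.Injective J := by
    rw [injective_iff_map_eq_one]
    intro z hz
    have hz1 : SemidirectProduct.inl (θ z.left) * s ^ (Multiplicative.toAdd z.right) =
      (1 : SemidirectProduct F (Multiplicative ℤ) φ) := hz
    have hz2 := congrArg SemidirectProduct.right hz1
    rw [SemidirectProduct.mul_right, hspow, SemidirectProduct.right_inl, one_mul,
      SemidirectProduct.one_right] at hz2
    have hz3 : (k : ℤ) * Multiplicative.toAdd z.right = 0 := congrArg Multiplicative.toAdd hz2
    have hz4 : Multiplicative.toAdd z.right = 0 := by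
      rcases mul_eq_zero.1 hz3 with h1 | h1
      · exfalso
        have : k = 0 := by exact_mod_cast h1
        omega
      · exact h1
    rw [hz4, zpow_zero, mul_one] at hz1
    have hz5 : θ z.left = 1 := SemidirectProduct.inl_injective (by rw [hz1, map_one])
    apply SemidirectProduct.ext
    · exact (MulEquiv.map_eq_one_iff θ).1 hz5
    · exact Multiplicative.toAdd.injective hz4
  let e := MonoidHom.ofInjective hJinj
  haveI : NeZero k := ⟨hk.ne'⟩
  let c : SemidirectProduct F (Multiplicative ℤ) φ →* Multiplicative (ZMod k) :=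
    (AddMonoidHom.toMultiplicative (Int.castAddHom (ZMod k))).comp SemidirectProduct.rightHom
  have hle : c.ker ≤ J.range := by
    intro z hz
    have h1 : ((Multiplicative.toAdd z.right : ℤ) : ZMod k) = 0 := by
      have h2 : c z = 1 := hz
      exact congrArg Multiplicative.toAdd h2
    rw [ZMod.intCast_zmod_eq_zero_iff_dvd] at h1
    obtain ⟨m, hm⟩ := h1
    rw [← SemidirectProduct.inl_left_mul_inr_right z]
    apply J.range.mul_mem
    · exact ⟨SemidirectProduct.inl (θ⁻¹ z.left), by
        rw [hJl, MulAut.apply_inv_self]⟩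
    · have h3 : z.right = Multiplicative.ofAdd (k : ℤ) ^ m := by
        apply Multiplicative.toAdd.injective
        rw [toAdd_zpow, toAdd_ofAdd, smul_eq_mul, mul_comm]
        exact hm
      rw [h3, map_zpow]
      apply J.range.zpow_mem
      have h4 : (SemidirectProduct.inr (Multiplicative.ofAdd (k : ℤ)) :
          SemidirectProduct F (Multiplicative ℤ) φ) = SemidirectProduct.inl g * s := by
        simp only [s]
        rw [← mul_assoc, ← map_mul, mul_inv_cancel, map_one, one_mul]
      rw [h4]
      apply J.range.mul_mem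
      · exact ⟨SemidirectProduct.inl (θ⁻¹ g), by rw [hJl, MulAut.apply_inv_self]⟩
      · refine ⟨SemidirectProduct.inr (Multiplicative.ofAdd 1), ?_⟩
        rw [hJr, toAdd_ofAdd, zpow_one]
  haveI : Finite (Multiplicative (ZMod k)) := inferInstanceAs (Finite (ZMod k))
  haveI : c.ker.FiniteIndex := Subgroup.finiteIndex_ker c
  haveI : J.range.FiniteIndex := Subgroup.finiteIndex_of_le hle
  exact exists_of_finiteIndex J.range (f.comp e.symm.toMonoidHom)
    (hf.comp e.symm.injective)

end twist

end Pool.Agent.Y708.LN
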