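import Pool.Agent.Y708.LN.Rep

/-!
# Faithfulness of the representation
-/

set_option autoImplicit false

open Finset

namespace Pool.Agent.Y708.LN

section word

variable {n : ℕ} (p q : Fin n → ℤ)

/-- the parameter of an end -/
def pos (e : Fin n × Bool) : ℤ := if e.2 then -p e.1 else q e.1

/-- the set of parameters -/
def SS : Finset ℤ := insert 0 (insert 1 (univ.image (pos p q)))

lemma pos_mem (e : Fin n × Bool) : pos p q e ∈ SS p q :=
  mem_insert_of_mem (mem_insert_of_mem (mem_image_of_mem _ (mem_univ e)))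

/-- the piece of an end -/
def sp (e : Fin n × Bool) : SS p q := ⟨pos p q e, pos_mem p q e⟩

/-- the slope of an end -/
def lam (e : Fin n × Bool) : ℚ := (2 * (e.1 : ℕ) + (if e.2 then 1 else 0 : ℕ) : ℕ) / (2 * n : ℕ)

lemma lam_ne {e e' : Fin n × Bool} {m : ℤ} (h : e ≠ e' ∨ m ≠ 0) : lam e + m - lam e' ≠ 0 := by
  obtain ⟨i, b⟩ := e
  obtain ⟨j, c⟩ := e'
  have hn : 0 < n := lt_of_le_of_lt (Nat.zero_le _) i.2
  have hn' : ((2 * n : ℕ) : ℚ) ≠ 0 := by
    rw [Nat.cast_ne_zero]; omega
  intro h0
  have h1 : (((2 * (i : ℕ) + (if b then 1 else 0 : ℕ) : ℕ) : ℚ)) + m * (2 * n : ℕ) -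
      (2 * (j : ℕ) + (if c then 1 else 0 : ℕ) : ℕ) = 0 := by
    unfold lam at h0
    simp only at h0
    field_simp at h0
    linarith
  have h2 : ((2 * (i : ℕ) + (if b then 1 else 0 : ℕ) : ℕ) : ℤ) + m * (2 * n : ℕ) -
      (2 * (j : ℕ) + (if c then 1 else 0 : ℕ) : ℕ) = 0 := by
    exact_mod_cast h1
  have hi := i.2
  have hj := j.2
  have hb : (if b then 1 else 0 : ℕ) ≤ 1 := by split_ifs <;> omega
  have hc : (if c then 1 else 0 : ℕ) ≤ 1 := by split_ifs <;> omega
  have hm : m = 0 := by
    push_cast at h2
    have h3 : |m * (2 * n)| < 2 * n := by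
      rw [abs_lt]
      constructor <;> omega
    rw [abs_mul, abs_of_nonneg (by positivity : (0 : ℤ) ≤ 2 * n)] at h3
    have h4 : |m| < 1 := by
      by_contra h4
      push Not at h4
      nlinarith
    exact Int.abs_lt_one_iff.1 h4
  subst hm
  rcases h with h | h
  · apply h
    have h5 : 2 * (i : ℕ) + (if b then 1 else 0 : ℕ) = 2 * (j : ℕ) + (if c then 1 else 0 : ℕ) := by
      rw [zero_mul, add_zero, sub_eq_zero] at h2
      exact_mod_cast h2
    have h6 : (i : ℕ) = j := by omega
    have h7 : (if b then 1 else 0 : ℕ) = (if c then 1 else 0 : ℕ) := by omega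
    have h8 : b = c := by
      cases b <;> cases c <;> simp_all
    rw [Fin.ext h6, h8]
  · exact h rfl

variable {K : Type*} [Field K] [CharZero K]

/-- the parameters in the field -/
def kap (r : SS p q) : K := ((r : ℤ) : K)

lemma kap_inj : Function.Injective (kap (K := K) p q) := by
  intro r r' h
  exact Subtype.ext (Int.cast_injective h)

variable {x : K} (hx : x ≠ 0)

/-- the image of a generator -/
noncomputable def fg (j : Fin (n + 1)) : (Module.End K (V K (SS p q)))ˣ :=
  Fin.cases (hu (kap p q) 1 0) (fun i => gu (kap_inj p q) hx (sp p q (i, true))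
    ((lam (i, true) : ℚ) : K) (sp p q (i, false)) ((lam (i, false) : ℚ) : K)) j

lemma fg_zero : fg p q hx 0 = hu (kap p q) 1 0 := rfl

lemma fg_succ (i : Fin n) : fg p q hx i.succ = gu (kap_inj p q) hx (sp p q (i, true))
    ((lam (i, true) : ℚ) : K) (sp p q (i, false)) ((lam (i, false) : ℚ) : K) := rfl

/-- the image of a letter -/
noncomputable def fl (y : Fin (n + 1) × Bool) : (Module.End K (V K (SS p q)))ˣ :=
  cond y.2 (fg p q hx y.1) (fg p q hx y.1)⁻¹

lemma fl_zero (b : Bool) : ((fl p q hx (0, b) : (Module.End K (V K (SS p q)))ˣ) :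
    Module.End K (V K (SS p q))) = hh (kap p q) (if b then 1 else -1) 0 := by
  cases b
  · change hh (kap p q) (-1) (-0) = _
    rw [neg_zero]; rfl
  · rfl

lemma fl_succ (i : Fin n) (b : Bool) : ((fl p q hx (i.succ, b) : (Module.End K (V K (SS p q)))ˣ) :
    Module.End K (V K (SS p q))) = gg (kap p q) x (sp p q (i, b)) ((lam (i, b) : ℚ) : K)
      (sp p q (i, !b)) ((lam (i, !b) : ℚ) : K) := by
  cases b <;> rfl

variable {Γ : Type*} [LinearOrderedCommGroupWithZero Γ] (v : Valuation K Γ)

/-- the condition on the first letter -/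
def Head (L : List (Fin (n + 1) × Bool)) (e : Fin n × Bool) (m : ℤ) : Prop :=
  ∃ y L', L = y :: L' ∧ ((y.1 = 0 ∧ (if y.2 then 0 < m else m < 0)) ∨
    (∃ i : Fin n, y.1 = i.succ ∧ m = 0 ∧ e = (i, y.2)))

/-- the operator of a word -/
noncomputable def ww (L : List (Fin (n + 1) × Bool)) : (Module.End K (V K (SS p q)))ˣ :=
  (L.map (fl p q hx)).prod

lemma ww_cons (y : Fin (n + 1) × Bool) (L : List (Fin (n + 1) × Bool)) :
    ww p q hx (y :: L) = fl p q hx y * ww p q hx L := by
  unfold ww
  rw [List.map_cons, List.prod_cons]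

/-- the alternative for reduced words -/
def Good (L : List (Fin (n + 1) × Bool)) : Prop :=
  (∃ m : ℤ, FreeGroup.mk L = FreeGroup.of 0 ^ m ∧
    ((ww p q hx L : (Module.End K (V K (SS p q)))ˣ) : Module.End K (V K (SS p q))) =
      hh (kap p q) (m : K) 0) ∨
  (∃ (s0 : SS p q) (e : Fin n × Bool) (m : ℤ),
    Inv v (sp p q e) ((lam e : ℚ) : K) (m : K)
      (((ww p q hx L : (Module.End K (V K (SS p q)))ˣ) : Module.End K (V K (SS p q))) (st s0)) ∧
    Head L e m)

variable {v}

theorem good (hv : ∀ t : ℚ, t ≠ 0 → v (t : K) = 1) (hx1 : 1 < v x)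
    (L : List (Fin (n + 1) × Bool)) (hL : FreeGroup.IsReduced L) : Good p q hx v L := by
  have hv' : ∀ t : ℚ, v (t : K) ≤ 1 := by
    intro t
    by_cases ht : t = 0
    · rw [ht, Rat.cast_zero, map_zero]; exact zero_le_one
    · exact (hv t ht).le
  have hκ : ∀ a b c d : SS p q, v ((kap (K := K) p q a - kap p q b) / (kap p q c - kap p q d)) ≤ 1 := by
    intro a b c d
    have e : (kap (K := K) p q a - kap p q b) / (kap p q c - kap p q d) =
        (((((a : ℤ) : ℚ) - ((b : ℤ) : ℚ)) / (((c : ℤ) : ℚ) - ((d : ℤ) : ℚ)) : ℚ) : K) := by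
      unfold kap
      push_cast
      rfl
    rw [e]
    exact hv' _
  induction L with
  | nil =>
    left
    refine ⟨0, ?_, ?_⟩
    · rw [zpow_zero]; rfl
    · rw [Int.cast_zero, hh_zero]; rfl
  | cons y L ih =>
    have hL' : FreeGroup.IsReduced L := hL.of_cons
    obtain ⟨j, b⟩ := y
    rcases ih hL' with ⟨m, hm1, hm2⟩ | ⟨s0, e, m, hI, hH⟩
    · -- only powers of `a` so far
      revert hL
      refine Fin.cases ?_ (fun i => ?_) j
      · intro hL
        left
        refine ⟨(if b then 1 else -1) + m, ?_, ?_⟩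
        · have : FreeGroup.mk ((0, b) :: L) = FreeGroup.mk [((0 : Fin (n + 1)), b)] *
            FreeGroup.mk L := by
            rw [FreeGroup.mul_mk]; rfl
          rw [this, hm1, zpow_add]
          congr 1
          cases b
          · rw [if_neg (by simp), zpow_neg_one]
            rfl
          · rw [if_pos rfl, zpow_one]
            rfl
        · rw [ww_cons, Units.val_mul, fl_zero, hm2, hh_mul, add_zero]
          congr 1
          cases b <;> simp
      · intro hL
        right
        refine ⟨sp p q (i, !b), (i, b), 0, ?_, ?_⟩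
        · rw [ww_cons, Units.val_mul, Module.End.mul_apply, hm2, hh_st, fl_succ, Int.cast_zero]
          exact Inv_start _ hx1 _ _ _ _
        · exact ⟨_, _, rfl, Or.inr ⟨i, rfl, rfl, rfl⟩⟩
    · right
      revert hL
      refine Fin.cases ?_ (fun i => ?_) j
      · intro hL
        refine ⟨s0, e, m + (if b then 1 else -1), ?_, ?_⟩
        · rw [ww_cons, Units.val_mul, Module.End.mul_apply, fl_zero]
          have := hI.of_hh (κ := kap p q) (a := ((if b then 1 else -1 : ℤ) : K)) (by
            have := hv' ((if b then 1 else -1 : ℤ) : ℚ)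
            rwa [Rat.cast_intCast] at this)
          rw [← Int.cast_add] at this
          convert this using 3
          cases b <;> simp
        · refine ⟨_, _, rfl, Or.inl ⟨rfl, ?_⟩⟩
          obtain ⟨y', L', rfl, h⟩ := hH
          have hr : (0 : Fin (n + 1)) = y'.1 → b = y'.2 := (List.isChain_cons_cons.1 hL).1
          rcases h with ⟨h1, h2⟩ | ⟨i', h1, h2, h3⟩
          · have h4 := hr h1.symm
            rw [← h4] at h2
            cases b
            · simp only [Bool.false_eq_true, if_false] at h2 ⊢
              omega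
            · simp only [if_true] at h2 ⊢
              omega
          · rw [h2]
            cases b <;> simp
      · intro hL
        refine ⟨s0, (i, b), 0, ?_, ?_⟩
        · rw [ww_cons, Units.val_mul, Module.End.mul_apply, fl_succ, Int.cast_zero]
          refine hI.of_gg hκ hx1 ?_ (hv' _) ?_
          · have := hv' (lam e + m)
            rwa [Rat.cast_add, Rat.cast_intCast] at this
          · intro _
            have := hv (lam e + m - lam (i, !b)) (by
              apply lam_ne
              obtain ⟨y', L', rfl, h⟩ := hH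
              have hr : (i.succ : Fin (n + 1)) = y'.1 → b = y'.2 :=
                (List.isChain_cons_cons.1 hL).1
              rcases h with ⟨h1, h2⟩ | ⟨i', h1, h2, h3⟩
              · right
                rintro rfl
                split_ifs at h2 <;> exact lt_irrefl _ h2
              · left
                intro h4
                rw [h3, Prod.mk.injEq] at h4
                obtain ⟨h5, h6⟩ := h4
                have h7 := hr (by rw [h1, h5])
                rw [← h7] at h6
                cases b <;> simp at h6)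
            rwa [Rat.cast_sub, Rat.cast_add, Rat.cast_intCast] at this
        · exact ⟨_, _, rfl, Or.inr ⟨i, rfl, rfl, rfl⟩⟩

end word

end Pool.Agent.Y708.LN
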